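import Pool.Agent.PQP.StmtsX

/-!
# PQP, row MTG: the general expansion near the boundary
-/

set_option autoImplicit false

open scoped InnerProductSpace Topology ContDiff Manifold
open MeasureTheory Filter Set

noncomputable section

namespace Pool.Agent.PQP.H17

open Pool.Agent.Helper42_Paneitz Pool.Agent.Helper82_Vir Pool.Agent.FLX

/-- numbers -/
lemma nums {a b c t e B G s c4 Δ ε : ℝ} (he : 0 ≤ e) (hB : 0 ≤ B) (hG : 0 ≤ G) (hs : 0 ≤ s)
    (hε : e * (1 + 2 * B) = ε) (hd : t = a + 1 / 2 * b + c) (p1 : |a| ≤ G * (e * s))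
    (p2 : |b - c4 * s ^ 2 * Δ| ≤ e * B * s ^ 2) (p3 : |c| ≤ B * (e * s ^ 2)) :
    |t - c4 / 2 * s ^ 2 * Δ| ≤ ε * (G * s + s ^ 2) := by
  have hk : G * (e * s) + 1 / 2 * (e * B * s ^ 2) + B * (e * s ^ 2) ≤ ε * (G * s + s ^ 2) := by
    rw [← hε]
    have k1 : 0 ≤ e * B * (G * s) := by positivity
    have k2 : 0 ≤ e * s ^ 2 := by positivity
    have k3 : 0 ≤ e * B * s ^ 2 := by positivity
    nlinarith
  rw [abs_le] at p1 p2 p3 ⊢
  obtain ⟨a1, a2⟩ := p1
  obtain ⟨b1, b2⟩ := p2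
  obtain ⟨d1, d2⟩ := p3
  constructor
  · linarith
  · linarith

section Parts

variable {h : S4 → ℝ} {z : S4 → E5} (hh : Continuous h) (hz : Continuous z) (E : Set S4)
  (L : E5 →L[ℝ] ℝ) (A : E5 →L[ℝ] E5 →L[ℝ] ℝ)

include hh hz

lemma cont1 : Continuous fun x : S4 => h x * L (z x) := hh.mul (L.continuous.comp hz)

lemma cont2 : Continuous fun x : S4 => h x * A (z x) (z x) :=
  hh.mul ((A.continuous.comp hz).clm_apply hz)

lemma cont4 : Continuous fun x : S4 => h x * ‖z x‖ ^ 3 := hh.mul (hz.norm.pow 3)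

lemma cont3 {r : S4 → ℝ} (hr : Continuous r) :
    Continuous fun x : S4 => h x * (r x - L (z x) - A (z x) (z x) / 2) :=
  hh.mul ((hr.sub (L.continuous.comp hz)).sub (((A.continuous.comp hz).clm_apply hz).div_const 2))

/-- the decomposition -/
lemma decomp {r : S4 → ℝ} (hr : Continuous r) :
    ∫ x in E, h x * r x ∂sig = (∫ x in E, h x * L (z x) ∂sig) +
      1 / 2 * (∫ x in E, h x * A (z x) (z x) ∂sig) +
      ∫ x in E, h x * (r x - L (z x) - A (z x) (z x) / 2) ∂sig := by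
  have i1 : Integrable (fun x : S4 => h x * L (z x)) (sig.restrict E) :=
    (integrable_cont (cont1 hh hz L)).integrableOn
  have i2 : Integrable (fun x : S4 => 1 / 2 * (h x * A (z x) (z x))) (sig.restrict E) :=
    ((integrable_cont (cont2 hh hz A)).const_mul _).integrableOn
  have i3 : Integrable (fun x : S4 => h x * (r x - L (z x) - A (z x) (z x) / 2))
      (sig.restrict E) := (integrable_cont (cont3 hh hz L A hr)).integrableOn
  have i12 : Integrable (fun x : S4 => h x * L (z x) + 1 / 2 * (h x * A (z x) (z x)))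
      (sig.restrict E) := i1.add i2
  have e : (fun x : S4 => h x * r x) = fun x => (h x * L (z x) + 1 / 2 * (h x * A (z x) (z x))) +
      h x * (r x - L (z x) - A (z x) (z x) / 2) := by
    funext x
    ring
  rw [e, integral_add i12 i3, integral_add i1 i2, integral_const_mul]

/-- the first order part -/
lemma first {G t : ℝ} (hG0 : 0 ≤ G) (hG : ∀ v, |L v| ≤ G * ‖v‖)
    (ht : ‖∫ x in E, h x • z x ∂sig‖ ≤ t) : |∫ x in E, h x * L (z x) ∂sig| ≤ G * t := by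
  have ci : Continuous fun x : S4 => h x • z x := hh.smul hz
  have i0 : Integrable (fun x : S4 => h x • z x) sig :=
    ci.integrable_of_hasCompactSupport (HasCompactSupport.of_compactSpace _)
  have ii : Integrable (fun x : S4 => h x • z x) (sig.restrict E) := i0.integrableOn
  have h2 : ∫ x in E, h x * L (z x) ∂sig = L (∫ x in E, h x • z x ∂sig) := by
    rw [← L.integral_comp_comm ii]
    refine integral_congr_ae (Eventually.of_forall fun x => ?_)
    simp only [map_smul, smul_eq_mul]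
  rw [h2]
  exact (hG _).trans (mul_le_mul_of_nonneg_left ht hG0)

/-- the remainder -/
lemma third {r : S4 → ℝ} {B t : ℝ} (hB : 0 ≤ B) (hp : ∀ x, 0 < h x)
    (hR : ∀ x, |r x| ≤ B * ‖z x‖ ^ 3) (ht : ∫ x in E, h x * ‖z x‖ ^ 3 ∂sig ≤ t) :
    |∫ x in E, h x * r x ∂sig| ≤ B * t := by
  have i4 : Integrable (fun x : S4 => B * (h x * ‖z x‖ ^ 3)) (sig.restrict E) :=
    ((integrable_cont (cont4 hh hz)).const_mul B).integrableOn
  have h1 : |∫ x in E, h x * r x ∂sig| ≤ ∫ x in E, B * (h x * ‖z x‖ ^ 3) ∂sig := by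
    rw [← Real.norm_eq_abs]
    refine norm_integral_le_of_norm_le i4 (Eventually.of_forall fun x => ?_)
    rw [norm_mul, Real.norm_eq_abs, Real.norm_eq_abs, abs_of_pos (hp x)]
    have h3 := mul_le_mul_of_nonneg_left (hR x) (hp x).le
    linarith
  rw [integral_const_mul] at h1
  exact h1.trans (mul_le_mul_of_nonneg_left ht hB)

/-- the expansion for general maps -/
lemma core {r : S4 → ℝ} {e B G s c4 Δ ε : ℝ} {w : E5} (hr : Continuous r) (he : 0 ≤ e)
    (hB : 0 ≤ B) (hG0 : 0 ≤ G) (hs : 0 ≤ s) (hε : e * (1 + 2 * B) = ε) (hp : ∀ x, 0 < h x)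
    (hG : ∀ v, |L v| ≤ G * ‖v‖) (hAn : ‖A‖ ≤ B)
    (hR : ∀ x, |r x - L (z x) - A (z x) (z x) / 2| ≤ B * ‖z x‖ ^ 3)
    (hlap : (∑ i : Fin 5, A (ee i) (ee i) - A w w) = Δ)
    (m1 : ‖∫ x in E, h x • z x ∂sig‖ ≤ e * s)
    (m2 : |∫ x in E, h x * A (z x) (z x) ∂sig -
      c4 * s ^ 2 * (∑ i : Fin 5, A (ee i) (ee i) - A w w)| ≤ e * ‖A‖ * s ^ 2)
    (m4 : ∫ x in E, h x * ‖z x‖ ^ 3 ∂sig ≤ e * s ^ 2) :
    |∫ x in E, h x * r x ∂sig - c4 / 2 * s ^ 2 * Δ| ≤ ε * (G * s + s ^ 2) := by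
  rw [hlap] at m2
  have p2 : |∫ x in E, h x * A (z x) (z x) ∂sig - c4 * s ^ 2 * Δ| ≤ e * B * s ^ 2 := by
    refine m2.trans ?_
    exact mul_le_mul_of_nonneg_right (mul_le_mul_of_nonneg_left hAn he) (sq_nonneg _)
  exact nums he hB hG0 hs hε (decomp hh hz E L A hr) (first hh hz E L hG0 hG m1) p2
    (third hh hz E hB hp hR m4)

end Parts

lemma mob_cont (hMOS : MosStmt) {b : E5} (hb : ‖b‖ < 1) : Continuous fun x : S4 => mob b x := by
  have h1 : Continuous fun x : S4 => ((b, x) : E5 × S4) := continuous_const.prodMk continuous_id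
  have h2 := hMOS.1.comp_continuous h1 (fun _ => hb)
  exact h2

lemma mob_cont2 (hMOS : MosStmt) {b : E5} (hb : ‖b‖ < 1) (w : S4) :
    Continuous fun x : S4 => (mob b x : E5) - (w : E5) :=
  (continuous_subtype_val.comp (mob_cont hMOS hb)).sub continuous_const

lemma hl (w : S4) {lam : ℝ} (h1 : 0 ≤ lam) (h2 : lam < 1) : ‖lam • (w : E5)‖ < 1 := by
  have hwn : ‖(w : E5)‖ = 1 := mem_sphere_zero_iff_norm.1 w.2
  rw [norm_smul, hwn, mul_one, Real.norm_eq_abs, abs_of_nonneg h1]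
  exact h2

theorem mtg (hMMT : MmtStmt) (hHES : HesStmt) (hMOS : MosStmt) : MtgStmt := by
  obtain ⟨c4, hc4, hM⟩ := hMMT
  refine ⟨c4, hc4, ?_⟩
  intro C1 B ε hC1 hB hε
  have he0 : 0 < ε / (1 + 2 * B) := by positivity
  have he1 : ε / (1 + 2 * B) * (1 + 2 * B) = ε := by
    field_simp
  obtain ⟨η, C, hη0, hη1, hC, hMM⟩ := hM C1 (ε / (1 + 2 * B)) hC1 he0
  refine ⟨η, hη0, hη1, ?_⟩
  intro w lam h E g G hl1 hl2 hh hint hE hEs h4 hg hT hG
  have hl0 : 0 ≤ lam := (sub_nonneg.2 hη1.le).trans hl1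
  obtain ⟨m1, m2, m3, m4⟩ := hMM w lam h E hl1 hl2 hh hint hE hEs h4
  have hwn : ‖(w : E5)‖ = 1 := mem_sphere_zero_iff_norm.1 w.2
  have hbn : ‖lam • (w : E5)‖ < 1 := hl w hl0 hl2
  have hmc := mob_cont hMOS hbn
  have hzc := mob_cont2 hMOS hbn w
  have hG0 : 0 ≤ G := by
    have h1 := hG (w : E5)
    rw [hwn, mul_one] at h1
    exact (abs_nonneg _).trans h1
  have hrc : Continuous fun x : S4 => g (mob (lam • (w : E5)) x) - g w :=
    ((continuous_of_sm hg).comp hmc).sub continuous_const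
  obtain ⟨L, hL⟩ : ∃ L : E5 →L[ℝ] ℝ, ∀ v, L v = dd g w v := ⟨_, fun _ => rfl⟩
  obtain ⟨A, hA⟩ : ∃ A : E5 →L[ℝ] E5 →L[ℝ] ℝ, ∀ v v', A v v' = hess g w v v' :=
    ⟨fderiv ℝ (fderiv ℝ (radialExt g)) (w : E5), fun _ _ => rfl⟩
  have hAn : ‖A‖ ≤ B := by
    refine ContinuousLinearMap.opNorm_le_bound₂ A hB fun v v' => ?_
    rw [Real.norm_eq_abs, hA]
    exact hT.2.2 w v v'
  have hlap : (∑ i : Fin 5, A (ee i) (ee i) - A (w : E5) (w : E5)) = sphLaplacian g w := by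
    obtain ⟨_, _, h3, h5⟩ := hHES g hg w (w : E5)
    rw [hA, h3, sub_zero, h5]
    exact Finset.sum_congr rfl fun i _ => hA _ _
  have hLG : ∀ v, |L v| ≤ G * ‖v‖ := by
    intro v
    rw [hL]
    exact hG v
  have hR : ∀ x : S4, |g (mob (lam • (w : E5)) x) - g w -
      L ((mob (lam • (w : E5)) x : E5) - (w : E5)) -
      A ((mob (lam • (w : E5)) x : E5) - (w : E5)) ((mob (lam • (w : E5)) x : E5) - (w : E5)) / 2| ≤
      B * ‖(mob (lam • (w : E5)) x : E5) - (w : E5)‖ ^ 3 := by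
    intro x
    rw [hL, hA]
    exact hT.1 w _
  exact core hh.1 hzc E L A hrc he0.le hB hG0 (Real.sqrt_nonneg _) he1 hh.2.1 hLG hAn hR hlap
    m1 (m2 A) m4

end Pool.Agent.PQP.H17
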